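import Pool.Agent.H.MP_4a7072_co.A

namespace Pool.Agent.H.MP_40ce5a_co

open Pool.Agent.H.MP_ea7ca7_co Pool.Agent.H.MP_4a7072_co

/-- The surface of the box `[0,a] × [0,b] × [0,c]`. -/
def boxSurface (a b c : ℕ) : Set P3 :=
  {q | (0 ≤ q 0 ∧ q 0 ≤ a) ∧ (0 ≤ q 1 ∧ q 1 ≤ b) ∧ (0 ≤ q 2 ∧ q 2 ≤ c) ∧
    ((q 0 = 0 ∨ q 0 = a) ∨ (q 1 = 0 ∨ q 1 = b) ∨ (q 2 = 0 ∨ q 2 = c))}

/-- The centre of the grid square `s`. -/
noncomputable def ctr (s : ℤ × ℤ) : P2 := !₂[(s.1 : ℝ) + 1 / 2, (s.2 : ℝ) + 1 / 2]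

/-- The squares outside `A` are connected through shared edges: `A` has no hole and no pinch. -/
def NoHole (A : Finset (ℤ × ℤ)) : Prop :=
  ∀ a ∉ A, ∀ b ∉ A, Relation.ReflTransGen (fun u v => u ∉ A ∧ v ∉ A ∧ Adj u v) a b

/-- `f` folds the polyomino `A` onto the box `a × b × c`: it is rigid on every unit square, two
squares hinged along a common edge stay flat (centres at distance `1`) or make a right angle
(centres at distance `√(1/2)`), the image is the whole surface, and no interior point overlaps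
another. -/
structure IsFolding (A : Finset (ℤ × ℤ)) (a b c : ℕ) (f : P2 → P3) : Prop where
  rigid : ∀ s ∈ A, ∀ x ∈ cell s, ∀ y ∈ cell s, dist (f x) (f y) = dist x y
  angle : ∀ s ∈ A, ∀ t ∈ A, Adj s t →
    dist (f (ctr s)) (f (ctr t)) = 1 ∨ dist (f (ctr s)) (f (ctr t)) ^ 2 = 1 / 2
  onto : f '' region A = boxSurface a b c
  once : Set.InjOn f (interior (region A))

/-- The unit edge shared by the squares `s` and `t` of `A` is a crease of `f` (nonzero angle). -/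
def Crease (A : Finset (ℤ × ℤ)) (f : P2 → P3) (s t : ℤ × ℤ) : Prop :=
  s ∈ A ∧ t ∈ A ∧ Adj s t ∧ dist (f (ctr s)) (f (ctr t)) ≠ 1

/-- At some grid vertex `(i, j)` both horizontal unit edges are creases of `f` and both vertical
unit edges are creases of `h`. -/
def Cross (A : Finset (ℤ × ℤ)) (f h : P2 → P3) : Prop :=
  ∃ i j : ℤ, Crease A f (i - 1, j - 1) (i - 1, j) ∧ Crease A f (i, j - 1) (i, j) ∧
    Crease A h (i - 1, j - 1) (i, j - 1) ∧ Crease A h (i - 1, j) (i, j)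

def frameB (a b c : ℕ) (d : D) : Prop :=
  ty d.x ∧ ty d.y ∧ ty d.z ∧ d.x.2.1 * d.x.2.1 + d.y.2.1 * d.y.2.1 + d.z.2.1 * d.z.2.1 = 1 ∧
    d.x.2.2 * d.x.2.2 + d.y.2.2 * d.y.2.2 + d.z.2.2 * d.z.2.2 = 1 ∧
    d.x.2.1 * d.x.2.2 + d.y.2.1 * d.y.2.2 + d.z.2.1 * d.z.2.2 = 0 ∧
    rng a d.x ∧ rng b d.y ∧ rng c d.z ∧ (fc a d.x ∨ fc b d.y ∨ fc c d.z)

instance (a b c : ℕ) (d : D) : Decidable (frameB a b c d) := by unfold frameB; infer_instance

def surjB (a b c : ℕ) (H : ℤ → ℤ → ℤ → Prop) : Prop :=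
  (∀ u ∈ List.range b, ∀ v ∈ List.range c, ∀ w ∈ [0, a], H (2 * w) (2 * u + 1) (2 * v + 1)) ∧
  (∀ u ∈ List.range a, ∀ v ∈ List.range c, ∀ w ∈ [0, b], H (2 * u + 1) (2 * w) (2 * v + 1)) ∧
  (∀ u ∈ List.range a, ∀ v ∈ List.range b, ∀ w ∈ [0, c], H (2 * u + 1) (2 * v + 1) (2 * w))

lemma gB_dist {a b c : ℕ} {d : D} (h : frameB a b c d) (p q : P2) :
    dist (g d p) (g d q) = dist p q := by
  obtain ⟨-, -, -, h1, h2, h3, -⟩ := h
  have h1' : (d.x.2.1 : ℝ) * d.x.2.1 + d.y.2.1 * d.y.2.1 + d.z.2.1 * d.z.2.1 = 1 := by exact_mod_cast h1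
  have h2' : (d.x.2.2 : ℝ) * d.x.2.2 + d.y.2.2 * d.y.2.2 + d.z.2.2 * d.z.2.2 = 1 := by exact_mod_cast h2
  have h3' : (d.x.2.1 : ℝ) * d.x.2.2 + d.y.2.1 * d.y.2.2 + d.z.2.1 * d.z.2.2 = 0 := by exact_mod_cast h3
  rw [EuclideanSpace.dist_eq, EuclideanSpace.dist_eq]
  congr 1
  simp only [Fin.sum_univ_three, Fin.sum_univ_two, Real.dist_eq, sq_abs, g, val]
  simp
  linear_combination (p 0 - q 0) ^ 2 * h1' + (p 1 - q 1) ^ 2 * h2' + 2 * (p 0 - q 0) * (p 1 - q 1) * h3'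

lemma gB_mem {a b c : ℕ} {d : D} (h : frameB a b c d) {p : P2} (hp : p ∈ cell (d.i, d.j)) :
    g d p ∈ boxSurface a b c := by
  obtain ⟨t1, t2, t3, -, -, -, r1, r2, r3, hf⟩ := h
  obtain ⟨h1, h2, h3, h4⟩ := hp
  simp only at h1 h2 h3 h4
  have k : ∀ l t, ty t → rng l t →
      0 ≤ val t (p 0 - d.i) (p 1 - d.j) ∧ val t (p 0 - d.i) (p 1 - d.j) ≤ l :=
    fun l t a b => val_rng a b (by linarith) (by linarith) (by linarith) (by linarith)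
  have k2 : ∀ l t, fc l t →
      val t (p 0 - d.i) (p 1 - d.j) = 0 ∨ val t (p 0 - d.i) (p 1 - d.j) = l := by
    rintro l t ⟨a, b, c | c⟩ <;> simp [val, a, b, c]
  refine ⟨k _ _ t1 r1, k _ _ t2 r2, k _ _ t3 r3, ?_⟩
  rcases hf with hf | hf | hf
  · exact .inl (k2 _ _ hf)
  · exact .inr (.inl (k2 _ _ hf))
  · exact .inr (.inr (k2 _ _ hf))

lemma gB_surj {a b c : ℕ} (ha : 0 < a) (hb : 0 < b) (hc : 0 < c) {L : List D}
    (hf : ∀ d ∈ L, frameB a b c d) (hs : surjB a b c (hit L)) {q : P3}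
    (hq : q ∈ boxSurface a b c) : ∃ d ∈ L, ∃ p ∈ cell (d.i, d.j), g d p = q := by
  obtain ⟨h0, h1, h2, hk⟩ := hq
  have W : ∀ (l : ℕ) (r : ℝ), r = 0 ∨ r = l → ∃ w ∈ [0, l], r = ((w : ℤ) : ℝ) := by
    rintro l r (hk | hk)
    · exact ⟨0, by simp, by simpa using hk⟩
    · exact ⟨l, by simp, by simpa using hk⟩
  obtain ⟨u0, a0, b0, c0⟩ := exists_unit ha h0.1 h0.2
  obtain ⟨u1, a1, b1, c1⟩ := exists_unit hb h1.1 h1.2
  obtain ⟨u2, a2, b2, c2⟩ := exists_unit hc h2.1 h2.2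
  have fin : ∀ (d : D) (a b : ℝ), 0 ≤ a → a ≤ 1 → 0 ≤ b → b ≤ 1 → val d.x a b = q 0 →
      val d.y a b = q 1 → val d.z a b = q 2 → ∃ p ∈ cell (d.i, d.j), g d p = q := by
    intro d a b e1 e2 e3 e4 e5 e6 e7
    refine ⟨!₂[a + d.i, b + d.j], ⟨?_, ?_, ?_, ?_⟩, ?_⟩
    · simpa using e1
    · simp; linarith
    · simpa using e3
    · simp; linarith
    · ext j
      fin_cases j <;> simp [g, e5, e6, e7]
  rcases hk with hk | hk | hk <;> obtain ⟨w, hw, hw'⟩ := W _ _ hk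
  · obtain ⟨d, hd, x1, x2, x3⟩ := hs.1 u1 a1 u2 a2 w hw
    obtain ⟨t1, t2, t3, n1, n2, -⟩ := hf d hd
    obtain ⟨z1, z2, z3⟩ := zero_hit t1 x1
    obtain ⟨a, b, e1, e2, e3, e4, e5, e6⟩ := two_hit t2 t3 (by rw [z1] at n1; linarith)
      (by rw [z2] at n2; linarith) x2 x3 b1 c1 b2 c2
    exact ⟨d, hd, fin d a b e1 e2 e3 e4 (by simp [val, z1, z2, z3]; simpa using hw'.symm) e5 e6⟩
  · obtain ⟨d, hd, x1, x2, x3⟩ := hs.2.1 u0 a0 u2 a2 w hw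
    obtain ⟨t1, t2, t3, n1, n2, -⟩ := hf d hd
    obtain ⟨z1, z2, z3⟩ := zero_hit t2 x2
    obtain ⟨a, b, e1, e2, e3, e4, e5, e6⟩ := two_hit t1 t3 (by rw [z1] at n1; linarith)
      (by rw [z2] at n2; linarith) x1 x3 b0 c0 b2 c2
    exact ⟨d, hd, fin d a b e1 e2 e3 e4 e5 (by simp [val, z1, z2, z3]; simpa using hw'.symm) e6⟩
  · obtain ⟨d, hd, x1, x2, x3⟩ := hs.2.2 u0 a0 u1 a1 w hw
    obtain ⟨t1, t2, t3, n1, n2, -⟩ := hf d hd
    obtain ⟨z1, z2, z3⟩ := zero_hit t3 x3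
    obtain ⟨a, b, e1, e2, e3, e4, e5, e6⟩ := two_hit t1 t2 (by rw [z1] at n1; linarith)
      (by rw [z2] at n2; linarith) x1 x2 b0 c0 b1 c1
    exact ⟨d, hd, fin d a b e1 e2 e3 e4 e5 e6 (by simp [val, z1, z2, z3]; simpa using hw'.symm)⟩

def dd (d e : D) : ℤ := (code d.x 1 1 - code e.x 1 1) ^ 2 + (code d.y 1 1 - code e.y 1 1) ^ 2 +
  (code d.z 1 1 - code e.z 1 1) ^ 2

lemma ctr_mem (s : ℤ × ℤ) : ctr s ∈ cell s := by
  refine ⟨?_, ?_, ?_, ?_⟩ <;> simp [ctr] <;> norm_num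

lemma dist_ctr (d e : D) :
    dist (g d (ctr (d.i, d.j))) (g e (ctr (e.i, e.j))) ^ 2 = (dd d e : ℝ) / 4 := by
  rw [EuclideanSpace.dist_eq, Real.sq_sqrt (by positivity)]
  simp only [Fin.sum_univ_three, Real.dist_eq, sq_abs, g, val, dd, code, ctr]
  simp
  ring

lemma fold_of {a b c : ℕ} (ha0 : 0 < a) (hb : 0 < b) (hc : 0 < c) {L : List D}
    (hf : ∀ d ∈ L, frameB a b c d) (ha : ∀ d ∈ L, ∀ d' ∈ L, agree d d')
    (hs : surjB a b c (hit L)) (hi : inj L)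
    (hang : ∀ d ∈ L, ∀ e ∈ L, Adj (d.i, d.j) (e.i, e.j) → dd d e = 4 ∨ dd d e = 2) :
    ∃ f, IsFolding (cellsOf L) a b c f ∧ ∀ d ∈ L, ∀ e ∈ L, dd d e = 4 →
      dist (f (ctr (d.i, d.j))) (f (ctr (e.i, e.j))) = 1 := by
  classical
  let f : P2 → P3 := fun p => if h : ∃ d ∈ L, p ∈ cell (d.i, d.j) then g h.choose p else 0
  have hfg : ∀ d ∈ L, ∀ p ∈ cell (d.i, d.j), f p = g d p := by
    intro d hd p hp
    have h : ∃ d ∈ L, p ∈ cell (d.i, d.j) := ⟨d, hd, hp⟩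
    simp only [f, dif_pos h]
    exact g_agree (ha _ h.choose_spec.1 d hd) h.choose_spec.2 hp
  have hmem : ∀ p, p ∈ region (cellsOf L) ↔ ∃ d ∈ L, p ∈ cell (d.i, d.j) := by
    intro p
    rw [mem_region]
    constructor
    · rintro ⟨c, hc, hp⟩
      obtain ⟨d, hd, e1, e2⟩ := mem_cellsOf.1 hc
      exact ⟨d, hd, by rw [e1, e2]; exact hp⟩
    · rintro ⟨d, hd, hp⟩
      exact ⟨_, mem_cellsOf.2 ⟨d, hd, rfl, rfl⟩, hp⟩
  have hsq : ∀ d ∈ L, ∀ e ∈ L,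
      dist (f (ctr (d.i, d.j))) (f (ctr (e.i, e.j))) ^ 2 = (dd d e : ℝ) / 4 := by
    intro d hd e he
    rw [hfg d hd _ (ctr_mem _), hfg e he _ (ctr_mem _), dist_ctr]
  have hone : ∀ d ∈ L, ∀ e ∈ L, dd d e = 4 →
      dist (f (ctr (d.i, d.j))) (f (ctr (e.i, e.j))) = 1 := by
    intro d hd e he h
    have := hsq d hd e he
    rw [h] at this
    exact (pow_eq_one_iff_of_nonneg dist_nonneg two_ne_zero).1 (by rw [this]; norm_num)
  have hcell : ∀ s ∈ cellsOf L, ∃ d ∈ L, s = (d.i, d.j) := by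
    intro s hs
    obtain ⟨d, hd, e1, e2⟩ := mem_cellsOf.1 hs
    exact ⟨d, hd, Prod.ext e1.symm e2.symm⟩
  refine ⟨f, ⟨?_, ?_, ?_, ?_⟩, hone⟩
  · intro s hs x hx y hy
    obtain ⟨d, hd, rfl⟩ := hcell s hs
    rw [hfg d hd x hx, hfg d hd y hy, gB_dist (hf d hd)]
  · intro s hs t ht hst
    obtain ⟨d, hd, rfl⟩ := hcell s hs
    obtain ⟨e, he, rfl⟩ := hcell t ht
    rcases hang d hd e he hst with h | h
    · exact .inl (hone d hd e he h)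
    · right; rw [hsq d hd e he, h]; norm_num
  · ext q
    constructor
    · rintro ⟨p, hp, rfl⟩
      obtain ⟨d, hd, hp⟩ := (hmem p).1 hp
      rw [hfg d hd p hp]
      exact gB_mem (hf d hd) hp
    · intro hq
      obtain ⟨d, hd, p, hp, e⟩ := gB_surj ha0 hb hc hf hs hq
      exact ⟨p, (hmem p).2 ⟨d, hd, hp⟩, by rw [hfg d hd p hp, e]⟩
  · intro p hp p' hp' e
    obtain ⟨d, hd, hc, e1, m1, e2, m2, hv, u1, u2⟩ := carrier hp
    obtain ⟨d', hd', hc', e1', m1', e2', m2', hv', u1', u2'⟩ := carrier hp'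
    have e' := e
    rw [hfg d hd p hc, hfg d' hd' p' hc'] at e'
    obtain ⟨t1, t2, t3, -⟩ := hf d hd
    obtain ⟨t1', t2', t3', -⟩ := hf d' hd'
    have q0 : val d.x (p 0 - d.i) (p 1 - d.j) = val d'.x (p' 0 - d'.i) (p' 1 - d'.j) :=
      congrArg (fun q : P3 => q 0) e'
    have q1 : val d.y (p 0 - d.i) (p 1 - d.j) = val d'.y (p' 0 - d'.i) (p' 1 - d'.j) :=
      congrArg (fun q : P3 => q 1) e'
    have q2 : val d.z (p 0 - d.i) (p 1 - d.j) = val d'.z (p' 0 - d'.i) (p' 1 - d'.j) :=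
      congrArg (fun q : P3 => q 2) e'
    obtain ⟨k1, k2⟩ := hi d hd e1 m1 e2 m2 hv d' hd' e1' m1' e2' m2'
      (by rw [← kap_val t1 u1 u2, ← kap_val t1' u1' u2', q0])
      (by rw [← kap_val t2 u1 u2, ← kap_val t2' u1' u2', q1])
      (by rw [← kap_val t3 u1 u2, ← kap_val t3' u1' u2', q2]) hv'
    rw [← k1, ← k2] at hc'
    rw [hfg d hd p hc, hfg d hd p' hc'] at e
    have := gB_dist (hf d hd) p p'
    rw [e, dist_self] at this
    exact dist_eq_zero.1 this.symm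

def ky (a b : ℕ) (x y z : ℤ) : ℕ := x.toNat + (2 * a + 1) * (y.toNat + (2 * b + 1) * z.toNat)

lemma split_eq {K x y x' y' : ℕ} (h : x < K) (h' : x' < K) (e : x + K * y = x' + K * y') :
    x = x' ∧ y = y' := by
  have e1 := congrArg (· % K) e
  have e2 := congrArg (· / K) e
  simp only [Nat.add_mul_mod_self_left, Nat.mod_eq_of_lt h, Nat.mod_eq_of_lt h'] at e1
  simp only [Nat.add_mul_div_left _ _ (Nat.zero_lt_of_lt h), Nat.div_eq_of_lt h,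
    Nat.div_eq_of_lt h', zero_add] at e2
  exact ⟨e1, e2⟩

def kyI (a b : ℕ) (x : D × ℤ × ℤ) : ℕ :=
  ky a b (code x.1.x x.2.1 x.2.2) (code x.1.y x.2.1 x.2.2) (code x.1.z x.2.1 x.2.2)

lemma injB_of {a b : ℕ} {L : List D} {M : ℕ} (hM : cm L = M)
    (h : nd ((items M L).map (kyI a b)) 0 = true) : inj L := by
  subst hM
  intro d hd e1 h1 e2 h2 hv d' hd' e1' h1' e2' h2' c1 c2 c3 hv'
  have := List.inj_on_of_nodup_map (nd_spec _ _ h).1 (mem_items hd h1 h2 hv) (mem_items hd' h1' h2' hv')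
    (by simp only [kyI, c1, c2, c3])
  obtain ⟨rfl, -⟩ := Prod.mk.inj this
  exact ⟨rfl, rfl⟩

def sm (a b : ℕ) : List D → ℕ
  | [] => 0
  | d :: L => sm a b L ||| 2 ^ kyI a b (d, 1, 1)

lemma sm_spec (a b : ℕ) : ∀ (L : List D) (k : ℕ), (sm a b L).testBit k = true →
    ∃ d ∈ L, kyI a b (d, 1, 1) = k
  | [], k, h => by simp [sm] at h
  | d :: L, k, h => by
    simp only [sm, Nat.testBit_or, Bool.or_eq_true, Nat.testBit_two_pow, decide_eq_true_eq] at h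
    rcases h with h | h
    · obtain ⟨e, he, k⟩ := sm_spec a b L k h
      exact ⟨e, List.mem_cons_of_mem _ he, k⟩
    · exact ⟨d, List.mem_cons_self, h⟩

lemma hit_of {a b c : ℕ} {L : List D} (hf : ∀ d ∈ L, frameB a b c d) {x y z : ℤ} (x0 : 0 ≤ x)
    (x1 : x ≤ 2 * a) (y0 : 0 ≤ y) (y1 : y ≤ 2 * b) (z0 : 0 ≤ z)
    (h : (sm a b L).testBit (ky a b x y z) = true) : hit L x y z := by
  obtain ⟨d, hd, e⟩ := sm_spec a b L _ h
  obtain ⟨-, -, -, -, -, -, r1, r2, r3, -⟩ := hf d hd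
  unfold rng at r1 r2 r3
  simp only [kyI, ky] at e
  obtain ⟨e1, e2⟩ := split_eq (by unfold code; omega) (by omega) e
  obtain ⟨e3, e4⟩ := split_eq (by unfold code; omega) (by omega) e2
  refine ⟨d, hd, ?_, ?_, ?_⟩ <;> unfold code at * <;> omega

lemma surjB_of {a b c : ℕ} {L : List D} (hf : ∀ d ∈ L, frameB a b c d) {S : ℕ} (hS : sm a b L = S)
    (h : surjB a b c fun x y z => S.testBit (ky a b x y z) = true) : surjB a b c (hit L) := by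
  subst hS
  obtain ⟨h1, h2, h3⟩ := h
  refine ⟨fun u hu v hv w hw => hit_of hf ?_ ?_ ?_ ?_ ?_ (h1 u hu v hv w hw),
    fun u hu v hv w hw => hit_of hf ?_ ?_ ?_ ?_ ?_ (h2 u hu v hv w hw),
    fun u hu v hv w hw => hit_of hf ?_ ?_ ?_ ?_ ?_ (h3 u hu v hv w hw)⟩ <;>
  simp only [List.mem_range, List.mem_cons, List.not_mem_nil, or_false] at hu hv hw <;> omega

lemma conn_of_rank (S : ℤ × ℤ → Prop) (r : ℤ × ℤ) (μ : ℤ × ℤ → ℕ)
    (h : ∀ c, S c → c = r ∨ ∃ c', S c' ∧ Adj c c' ∧ μ c' < μ c) (a b : ℤ × ℤ) (ha : S a) (hb : S b) :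
    Relation.ReflTransGen (fun u v => S u ∧ S v ∧ Adj u v) a b := by
  have k : ∀ n c, μ c < n → S c → Relation.ReflTransGen (fun u v => S u ∧ S v ∧ Adj u v) c r ∧
      Relation.ReflTransGen (fun u v => S u ∧ S v ∧ Adj u v) r c := by
    intro n
    induction n with
    | zero => intro c hc; omega
    | succ n ih =>
      intro c hc hS
      rcases h c hS with rfl | ⟨c', h1, h2, h3⟩
      · exact ⟨.refl, .refl⟩
      · obtain ⟨i1, i2⟩ := ih c' (by omega) h1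
        refine ⟨.head ⟨hS, h1, h2⟩ i1, i2.tail ⟨h1, hS, ?_⟩⟩
        unfold Adj at h2 ⊢
        rw [abs_sub_comm c'.1, abs_sub_comm c'.2]; exact h2
  exact (k _ a (Nat.lt_succ_self _) ha).1.trans (k _ b (Nat.lt_succ_self _) hb).2

end Pool.Agent.H.MP_40ce5a_co
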