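import Pool.Agent.H.MP_40ce5a_co.B

namespace Pool.Agent.H.MP_40ce5a_co

open Pool.Agent.H.MP_ea7ca7_co Pool.Agent.H.MP_4a7072_co

lemma w0 : rowOK 0 := by decide +kernel
lemma w1 : rowOK 1 := by decide +kernel
lemma w2 : rowOK 2 := by decide +kernel
lemma w3 : rowOK 3 := by decide +kernel
lemma w4 : rowOK 4 := by decide +kernel
lemma w5 : rowOK 5 := by decide +kernel
lemma w6 : rowOK 6 := by decide +kernel
lemma w7 : rowOK 7 := by decide +kernel
lemma w8 : rowOK 8 := by decide +kernel
lemma w9 : rowOK 9 := by decide +kernel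
lemma w10 : rowOK 10 := by decide +kernel
lemma w11 : rowOK 11 := by decide +kernel
lemma w12 : rowOK 12 := by decide +kernel
lemma w13 : rowOK 13 := by decide +kernel
lemma w14 : rowOK 14 := by decide +kernel
lemma w15 : rowOK 15 := by decide +kernel
lemma w16 : rowOK 16 := by decide +kernel
lemma w17 : rowOK 17 := by decide +kernel
lemma w18 : rowOK 18 := by decide +kernel
lemma w19 : rowOK 19 := by decide +kernel
lemma w20 : rowOK 20 := by decide +kernel

end Pool.Agent.H.MP_40ce5a_co
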