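import Pool.Agent.H.MP_40ce5a_co.B

namespace Pool.Agent.H.MP_40ce5a_co

open Pool.Agent.H.MP_ea7ca7_co Pool.Agent.H.MP_4a7072_co

lemma w21 : rowOK 21 := by decide +kernel
lemma w22 : rowOK 22 := by decide +kernel
lemma w23 : rowOK 23 := by decide +kernel
lemma w24 : rowOK 24 := by decide +kernel
lemma w25 : rowOK 25 := by decide +kernel
lemma w26 : rowOK 26 := by decide +kernel
lemma w27 : rowOK 27 := by decide +kernel
lemma w28 : rowOK 28 := by decide +kernel
lemma w29 : rowOK 29 := by decide +kernel
lemma w30 : rowOK 30 := by decide +kernel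
lemma w31 : rowOK 31 := by decide +kernel
lemma w32 : rowOK 32 := by decide +kernel
lemma w33 : rowOK 33 := by decide +kernel
lemma w34 : rowOK 34 := by decide +kernel
lemma w35 : rowOK 35 := by decide +kernel
lemma w36 : rowOK 36 := by decide +kernel
lemma w37 : rowOK 37 := by decide +kernel
lemma w38 : rowOK 38 := by decide +kernel
lemma w39 : rowOK 39 := by decide +kernel
lemma w40 : rowOK 40 := by decide +kernel

end Pool.Agent.H.MP_40ce5a_co
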