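import Pool.Agent.H.MP_40ce5a_co.B

namespace Pool.Agent.H.MP_40ce5a_co

open Pool.Agent.H.MP_ea7ca7_co Pool.Agent.H.MP_4a7072_co

lemma w41 : rowOK 41 := by decide +kernel
lemma w42 : rowOK 42 := by decide +kernel
lemma w43 : rowOK 43 := by decide +kernel
lemma w44 : rowOK 44 := by decide +kernel
lemma w45 : rowOK 45 := by decide +kernel
lemma w46 : rowOK 46 := by decide +kernel
lemma w47 : rowOK 47 := by decide +kernel
lemma w48 : rowOK 48 := by decide +kernel
lemma w49 : rowOK 49 := by decide +kernel
lemma w50 : rowOK 50 := by decide +kernel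
lemma w51 : rowOK 51 := by decide +kernel
lemma w52 : rowOK 52 := by decide +kernel
lemma w53 : rowOK 53 := by decide +kernel
lemma w54 : rowOK 54 := by decide +kernel
lemma w55 : rowOK 55 := by decide +kernel
lemma w56 : rowOK 56 := by decide +kernel
lemma w57 : rowOK 57 := by decide +kernel
lemma w58 : rowOK 58 := by decide +kernel
lemma w59 : rowOK 59 := by decide +kernel
lemma w60 : rowOK 60 := by decide +kernel
lemma w61 : rowOK 61 := by decide +kernel

end Pool.Agent.H.MP_40ce5a_co
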