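import Pool.Agent.H.MP_40ce5a_co.B

namespace Pool.Agent.H.MP_40ce5a_co

open Pool.Agent.H.MP_ea7ca7_co Pool.Agent.H.MP_4a7072_co

lemma p1_0 : ∀ v ∈ List.range 52, ∀ w ∈ [0, 8], sj 8 T1 G1 (2 * (w : ℕ)) (2 * (0 : ℕ) + 1) (2 * v + 1) := by
  decide +kernel
lemma p2_0 : ∀ v ∈ List.range 52, ∀ w ∈ [0, 8], sj 8 T1 G1 (2 * (0 : ℕ) + 1) (2 * (w : ℕ)) (2 * v + 1) := by
  decide +kernel
lemma p1_1 : ∀ v ∈ List.range 52, ∀ w ∈ [0, 8], sj 8 T1 G1 (2 * (w : ℕ)) (2 * (1 : ℕ) + 1) (2 * v + 1) := by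
  decide +kernel
lemma p2_1 : ∀ v ∈ List.range 52, ∀ w ∈ [0, 8], sj 8 T1 G1 (2 * (1 : ℕ) + 1) (2 * (w : ℕ)) (2 * v + 1) := by
  decide +kernel
lemma p1_2 : ∀ v ∈ List.range 52, ∀ w ∈ [0, 8], sj 8 T1 G1 (2 * (w : ℕ)) (2 * (2 : ℕ) + 1) (2 * v + 1) := by
  decide +kernel
lemma p2_2 : ∀ v ∈ List.range 52, ∀ w ∈ [0, 8], sj 8 T1 G1 (2 * (2 : ℕ) + 1) (2 * (w : ℕ)) (2 * v + 1) := by
  decide +kernel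
lemma p1_3 : ∀ v ∈ List.range 52, ∀ w ∈ [0, 8], sj 8 T1 G1 (2 * (w : ℕ)) (2 * (3 : ℕ) + 1) (2 * v + 1) := by
  decide +kernel
lemma p2_3 : ∀ v ∈ List.range 52, ∀ w ∈ [0, 8], sj 8 T1 G1 (2 * (3 : ℕ) + 1) (2 * (w : ℕ)) (2 * v + 1) := by
  decide +kernel
lemma p1_4 : ∀ v ∈ List.range 52, ∀ w ∈ [0, 8], sj 8 T1 G1 (2 * (w : ℕ)) (2 * (4 : ℕ) + 1) (2 * v + 1) := by
  decide +kernel
lemma p2_4 : ∀ v ∈ List.range 52, ∀ w ∈ [0, 8], sj 8 T1 G1 (2 * (4 : ℕ) + 1) (2 * (w : ℕ)) (2 * v + 1) := by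
  decide +kernel
lemma p1_5 : ∀ v ∈ List.range 52, ∀ w ∈ [0, 8], sj 8 T1 G1 (2 * (w : ℕ)) (2 * (5 : ℕ) + 1) (2 * v + 1) := by
  decide +kernel
lemma p2_5 : ∀ v ∈ List.range 52, ∀ w ∈ [0, 8], sj 8 T1 G1 (2 * (5 : ℕ) + 1) (2 * (w : ℕ)) (2 * v + 1) := by
  decide +kernel
lemma p1_6 : ∀ v ∈ List.range 52, ∀ w ∈ [0, 8], sj 8 T1 G1 (2 * (w : ℕ)) (2 * (6 : ℕ) + 1) (2 * v + 1) := by
  decide +kernel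
lemma p2_6 : ∀ v ∈ List.range 52, ∀ w ∈ [0, 8], sj 8 T1 G1 (2 * (6 : ℕ) + 1) (2 * (w : ℕ)) (2 * v + 1) := by
  decide +kernel
lemma p1_7 : ∀ v ∈ List.range 52, ∀ w ∈ [0, 8], sj 8 T1 G1 (2 * (w : ℕ)) (2 * (7 : ℕ) + 1) (2 * v + 1) := by
  decide +kernel
lemma p2_7 : ∀ v ∈ List.range 52, ∀ w ∈ [0, 8], sj 8 T1 G1 (2 * (7 : ℕ) + 1) (2 * (w : ℕ)) (2 * v + 1) := by
  decide +kernel
lemma p3 : ∀ u ∈ List.range 8, ∀ v ∈ List.range 8, ∀ w ∈ [0, 52],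
    sj 8 T1 G1 (2 * u + 1) (2 * v + 1) (2 * (w : ℕ)) := by decide +kernel
lemma q1_0 : ∀ v ∈ List.range 28, ∀ w ∈ [0, 2], sj 2 T2 G2 (2 * (w : ℕ)) (2 * (0 : ℕ) + 1) (2 * v + 1) := by
  decide +kernel
lemma q1_1 : ∀ v ∈ List.range 28, ∀ w ∈ [0, 2], sj 2 T2 G2 (2 * (w : ℕ)) (2 * (1 : ℕ) + 1) (2 * v + 1) := by
  decide +kernel
lemma q1_2 : ∀ v ∈ List.range 28, ∀ w ∈ [0, 2], sj 2 T2 G2 (2 * (w : ℕ)) (2 * (2 : ℕ) + 1) (2 * v + 1) := by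
  decide +kernel
lemma q1_3 : ∀ v ∈ List.range 28, ∀ w ∈ [0, 2], sj 2 T2 G2 (2 * (w : ℕ)) (2 * (3 : ℕ) + 1) (2 * v + 1) := by
  decide +kernel
lemma q1_4 : ∀ v ∈ List.range 28, ∀ w ∈ [0, 2], sj 2 T2 G2 (2 * (w : ℕ)) (2 * (4 : ℕ) + 1) (2 * v + 1) := by
  decide +kernel
lemma q1_5 : ∀ v ∈ List.range 28, ∀ w ∈ [0, 2], sj 2 T2 G2 (2 * (w : ℕ)) (2 * (5 : ℕ) + 1) (2 * v + 1) := by
  decide +kernel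
lemma q1_6 : ∀ v ∈ List.range 28, ∀ w ∈ [0, 2], sj 2 T2 G2 (2 * (w : ℕ)) (2 * (6 : ℕ) + 1) (2 * v + 1) := by
  decide +kernel
lemma q1_7 : ∀ v ∈ List.range 28, ∀ w ∈ [0, 2], sj 2 T2 G2 (2 * (w : ℕ)) (2 * (7 : ℕ) + 1) (2 * v + 1) := by
  decide +kernel
lemma q1_8 : ∀ v ∈ List.range 28, ∀ w ∈ [0, 2], sj 2 T2 G2 (2 * (w : ℕ)) (2 * (8 : ℕ) + 1) (2 * v + 1) := by
  decide +kernel
lemma q1_9 : ∀ v ∈ List.range 28, ∀ w ∈ [0, 2], sj 2 T2 G2 (2 * (w : ℕ)) (2 * (9 : ℕ) + 1) (2 * v + 1) := by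
  decide +kernel
lemma q1_10 : ∀ v ∈ List.range 28, ∀ w ∈ [0, 2], sj 2 T2 G2 (2 * (w : ℕ)) (2 * (10 : ℕ) + 1) (2 * v + 1) := by
  decide +kernel
lemma q1_11 : ∀ v ∈ List.range 28, ∀ w ∈ [0, 2], sj 2 T2 G2 (2 * (w : ℕ)) (2 * (11 : ℕ) + 1) (2 * v + 1) := by
  decide +kernel
lemma q1_12 : ∀ v ∈ List.range 28, ∀ w ∈ [0, 2], sj 2 T2 G2 (2 * (w : ℕ)) (2 * (12 : ℕ) + 1) (2 * v + 1) := by
  decide +kernel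
lemma q1_13 : ∀ v ∈ List.range 28, ∀ w ∈ [0, 2], sj 2 T2 G2 (2 * (w : ℕ)) (2 * (13 : ℕ) + 1) (2 * v + 1) := by
  decide +kernel
lemma q1_14 : ∀ v ∈ List.range 28, ∀ w ∈ [0, 2], sj 2 T2 G2 (2 * (w : ℕ)) (2 * (14 : ℕ) + 1) (2 * v + 1) := by
  decide +kernel
lemma q1_15 : ∀ v ∈ List.range 28, ∀ w ∈ [0, 2], sj 2 T2 G2 (2 * (w : ℕ)) (2 * (15 : ℕ) + 1) (2 * v + 1) := by
  decide +kernel
lemma q1_16 : ∀ v ∈ List.range 28, ∀ w ∈ [0, 2], sj 2 T2 G2 (2 * (w : ℕ)) (2 * (16 : ℕ) + 1) (2 * v + 1) := by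
  decide +kernel
lemma q1_17 : ∀ v ∈ List.range 28, ∀ w ∈ [0, 2], sj 2 T2 G2 (2 * (w : ℕ)) (2 * (17 : ℕ) + 1) (2 * v + 1) := by
  decide +kernel
lemma q1_18 : ∀ v ∈ List.range 28, ∀ w ∈ [0, 2], sj 2 T2 G2 (2 * (w : ℕ)) (2 * (18 : ℕ) + 1) (2 * v + 1) := by
  decide +kernel
lemma q1_19 : ∀ v ∈ List.range 28, ∀ w ∈ [0, 2], sj 2 T2 G2 (2 * (w : ℕ)) (2 * (19 : ℕ) + 1) (2 * v + 1) := by
  decide +kernel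
lemma q1_20 : ∀ v ∈ List.range 28, ∀ w ∈ [0, 2], sj 2 T2 G2 (2 * (w : ℕ)) (2 * (20 : ℕ) + 1) (2 * v + 1) := by
  decide +kernel
lemma q1_21 : ∀ v ∈ List.range 28, ∀ w ∈ [0, 2], sj 2 T2 G2 (2 * (w : ℕ)) (2 * (21 : ℕ) + 1) (2 * v + 1) := by
  decide +kernel
lemma q1_22 : ∀ v ∈ List.range 28, ∀ w ∈ [0, 2], sj 2 T2 G2 (2 * (w : ℕ)) (2 * (22 : ℕ) + 1) (2 * v + 1) := by
  decide +kernel
lemma q1_23 : ∀ v ∈ List.range 28, ∀ w ∈ [0, 2], sj 2 T2 G2 (2 * (w : ℕ)) (2 * (23 : ℕ) + 1) (2 * v + 1) := by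
  decide +kernel
lemma q1_24 : ∀ v ∈ List.range 28, ∀ w ∈ [0, 2], sj 2 T2 G2 (2 * (w : ℕ)) (2 * (24 : ℕ) + 1) (2 * v + 1) := by
  decide +kernel
lemma q1_25 : ∀ v ∈ List.range 28, ∀ w ∈ [0, 2], sj 2 T2 G2 (2 * (w : ℕ)) (2 * (25 : ℕ) + 1) (2 * v + 1) := by
  decide +kernel
lemma q1_26 : ∀ v ∈ List.range 28, ∀ w ∈ [0, 2], sj 2 T2 G2 (2 * (w : ℕ)) (2 * (26 : ℕ) + 1) (2 * v + 1) := by
  decide +kernel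
lemma q1_27 : ∀ v ∈ List.range 28, ∀ w ∈ [0, 2], sj 2 T2 G2 (2 * (w : ℕ)) (2 * (27 : ℕ) + 1) (2 * v + 1) := by
  decide +kernel
lemma q2 : ∀ u ∈ List.range 2, ∀ v ∈ List.range 28, ∀ w ∈ [0, 28],
    sj 2 T2 G2 (2 * u + 1) (2 * (w : ℕ)) (2 * v + 1) := by decide +kernel
lemma q3 : ∀ u ∈ List.range 2, ∀ v ∈ List.range 28, ∀ w ∈ [0, 28],
    sj 2 T2 G2 (2 * u + 1) (2 * v + 1) (2 * (w : ℕ)) := by decide +kernel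

lemma t1 : surjB 8 8 52 (sj 8 T1 G1) := by
  refine ⟨fun u hu => ?_, fun u hu => ?_, p3⟩ <;> rw [List.mem_range] at hu <;> interval_cases u
  exacts [p1_0, p1_1, p1_2, p1_3, p1_4, p1_5, p1_6, p1_7, p2_0, p2_1, p2_2, p2_3, p2_4, p2_5, p2_6, p2_7]

lemma t2 : surjB 2 28 28 (sj 2 T2 G2) := by
  refine ⟨fun u hu => ?_, q2, q3⟩
  rw [List.mem_range] at hu
  interval_cases u
  exacts [q1_0, q1_1, q1_2, q1_3, q1_4, q1_5, q1_6, q1_7, q1_8, q1_9, q1_10, q1_11, q1_12, q1_13, q1_14, q1_15, q1_16, q1_17, q1_18, q1_19, q1_20, q1_21, q1_22, q1_23, q1_24, q1_25, q1_26, q1_27]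

end Pool.Agent.H.MP_40ce5a_co
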